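import Pool.Agent.Q224.PL.Time

/-!
# Path-like trees are recognised in polynomial time

A tree is path-like if it is obtained from a crossing-free embedding of a path in the grid by a set
of elementary transformations.  We show that, up to isomorphism, these are exactly the trees on
`0, …, n - 1` with the edges `{b - 1 - τ b, b + τ b}`, `1 ≤ b < n`, where `τ b ≥ 0` and the
intervals of the places `b` with `τ b > 0` are far enough from each other (`pathLike_iff`), and that
a dynamic programme over the states (edge of the tree, number) recognises them.
-/

set_option autoImplicit false

namespace Pool.Agent.Results.MP_eef266_lc.Polynomial

open Pool.Agent.NPC Q224.PL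

/-- **Recognising path-like trees is in `P`**: the set of the codes (list of vertices, list of
edges) of graphs which are isomorphic to a path-like tree is decided in polynomial time. -/
theorem result : InPP (fun x : List ℕ × List (ℕ × ℕ) => PathLike (cG x)) :=
  Pool.Agent.NPC.Q224PL.inPP

end Pool.Agent.Results.MP_eef266_lc.Polynomial
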